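import Pool.Agent.K1H40.CT.Stm

/-!
# Project CT, piece GRAM: the Gram matrix and the commutation rules
-/

set_option autoImplicit false

namespace Pool.Agent.K1H10.CT

open Pool.Agent.K1H40.CT

universe u w

section sums

variable {M : Type w} [AddCommMonoid M] {n : ℕ}

theorem sum_swap4 (f : Fin n → Fin n → Fin n → Fin n → M) :
    ∑ i, ∑ j, ∑ k, ∑ l, f i j k l = ∑ k, ∑ l, ∑ i, ∑ j, f i j k l := by
  calc ∑ i, ∑ j, ∑ k, ∑ l, f i j k l
      = ∑ i, ∑ k, ∑ j, ∑ l, f i j k l := Finset.sum_congr rfl fun i _ => Finset.sum_comm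
    _ = ∑ k, ∑ i, ∑ j, ∑ l, f i j k l := Finset.sum_comm
    _ = ∑ k, ∑ i, ∑ l, ∑ j, f i j k l :=
        Finset.sum_congr rfl fun k _ => Finset.sum_congr rfl fun i _ => Finset.sum_comm
    _ = ∑ k, ∑ l, ∑ i, ∑ j, f i j k l := Finset.sum_congr rfl fun k _ => Finset.sum_comm

theorem sum_last4 (f : Fin n → Fin n → Fin n → Fin n → M) :
    ∑ i, ∑ j, ∑ k, ∑ l, f i j k l = ∑ l, ∑ i, ∑ j, ∑ k, f i j k l := by
  calc ∑ i, ∑ j, ∑ k, ∑ l, f i j k l
      = ∑ i, ∑ j, ∑ l, ∑ k, f i j k l :=
        Finset.sum_congr rfl fun i _ => Finset.sum_congr rfl fun j _ => Finset.sum_comm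
    _ = ∑ i, ∑ l, ∑ j, ∑ k, f i j k l := Finset.sum_congr rfl fun i _ => Finset.sum_comm
    _ = ∑ l, ∑ i, ∑ j, ∑ k, f i j k l := Finset.sum_comm

end sums

section main

variable {R : Type u} [CommRing R] {n : ℕ} {L : Type w} [Ring L] [Algebra R L]
  {z : Fin n → Fin n → Fin n → Fin n → R}

theorem zpair (h : Rk6 z) (i j k l : Fin n) : z i j k l = z k l i j := by
  rw [h.s2, h.s1, h.s3, h.s2]

theorem FF_sw01 (h : Rk6 z) (a b c d : Fin n → L) (hab : ∀ i j, b i * a j = -(a j * b i)) :
    FF z b a c d = -FF z a b c d := by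
  unfold FF
  rw [Finset.sum_comm, ← Finset.sum_neg_distrib]
  refine Finset.sum_congr rfl fun i _ => ?_
  rw [← Finset.sum_neg_distrib]
  refine Finset.sum_congr rfl fun j _ => ?_
  rw [← Finset.sum_neg_distrib]
  refine Finset.sum_congr rfl fun k _ => ?_
  rw [← Finset.sum_neg_distrib]
  refine Finset.sum_congr rfl fun l _ => ?_
  rw [hab, h.s1 j i, neg_mul, neg_mul, smul_neg]

theorem FF_sw12 (h : Rk6 z) (a b c d : Fin n → L) (hab : ∀ i j, c i * b j = -(b j * c i)) :
    FF z a c b d = -FF z a b c d := by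
  unfold FF
  rw [← Finset.sum_neg_distrib]
  refine Finset.sum_congr rfl fun i _ => ?_
  rw [Finset.sum_comm, ← Finset.sum_neg_distrib]
  refine Finset.sum_congr rfl fun j _ => ?_
  rw [← Finset.sum_neg_distrib]
  refine Finset.sum_congr rfl fun k _ => ?_
  rw [← Finset.sum_neg_distrib]
  refine Finset.sum_congr rfl fun l _ => ?_
  rw [mul_assoc (a i), hab, h.s2 i k j, mul_neg, neg_mul, smul_neg, ← mul_assoc (a i)]

theorem FF_sw23 (h : Rk6 z) (a b c d : Fin n → L) (hab : ∀ i j, d i * c j = -(c j * d i)) :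
    FF z a b d c = -FF z a b c d := by
  unfold FF
  rw [← Finset.sum_neg_distrib]
  refine Finset.sum_congr rfl fun i _ => ?_
  rw [← Finset.sum_neg_distrib]
  refine Finset.sum_congr rfl fun j _ => ?_
  rw [Finset.sum_comm, ← Finset.sum_neg_distrib]
  refine Finset.sum_congr rfl fun k _ => ?_
  rw [← Finset.sum_neg_distrib]
  refine Finset.sum_congr rfl fun l _ => ?_
  rw [mul_assoc (a i * b j), hab, h.s3 i j l k, mul_neg, smul_neg, mul_assoc (a i * b j)]

/-- An element anticommuting with all odd elements anticommutes with `T`. -/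
theorem TT_anti {v : Fin n → R} {t : Fin 4 → Fin n → L} {O : Set L} (ht : ∀ c i, t c i ∈ O)
    (Y : L) (hY : ∀ x ∈ O, Y * x = -(x * Y)) (a b c : Fin 4) :
    Y * TT z v t a b c = -(TT z v t a b c * Y) := by
  unfold TT FF cv
  simp only [Finset.mul_sum, Finset.sum_mul]
  rw [← Finset.sum_neg_distrib]
  refine Finset.sum_congr rfl fun i _ => ?_
  rw [← Finset.sum_neg_distrib]
  refine Finset.sum_congr rfl fun j _ => ?_
  rw [← Finset.sum_neg_distrib]
  refine Finset.sum_congr rfl fun k _ => ?_
  rw [← Finset.sum_neg_distrib]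
  refine Finset.sum_congr rfl fun l _ => ?_
  rw [mul_smul_comm, smul_mul_assoc, ← smul_neg]
  congr 1
  have h1 : Y * algebraMap R L (v i) = algebraMap R L (v i) * Y := (Algebra.commutes _ _).symm
  have h2 := hY _ (ht a j)
  have h3 := hY _ (ht b k)
  have h4 := hY _ (ht c l)
  calc Y * (algebraMap R L (v i) * t a j * t b k * t c l)
      = (Y * algebraMap R L (v i)) * t a j * t b k * t c l := by simp only [mul_assoc]
    _ = algebraMap R L (v i) * (Y * t a j) * t b k * t c l := by rw [h1]; simp only [mul_assoc]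
    _ = -(algebraMap R L (v i) * t a j * (Y * t b k) * t c l) := by
        rw [h2]; simp only [mul_assoc, mul_neg, neg_mul]
    _ = algebraMap R L (v i) * t a j * t b k * (Y * t c l) := by
        rw [h3]; simp only [mul_assoc, mul_neg, neg_mul, neg_neg]
    _ = -(algebraMap R L (v i) * t a j * t b k * t c l * Y) := by
        rw [h4]; simp only [mul_assoc, mul_neg]

theorem central_pair {O : Set L} (ho : OddSet O) {x y : L} (hx : x ∈ O) (hy : y ∈ O) (w : L) :
    x * y * w = w * (x * y) := ho.cen x hx y hy w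

end main

/-- An element equal to its opposite vanishes when `2` is invertible. -/
theorem eq_zero_of_eq_neg {R : Type u} [CommRing R] [Algebra ℚ R] {L : Type w} [Ring L]
    [Algebra R L] {x : L} (h : x = -x) : x = 0 := by
  have h2 : (algebraMap ℚ R (1 / 2) * 2 : R) = 1 := by
    have : (2 : R) = algebraMap ℚ R 2 := (map_ofNat (algebraMap ℚ R) 2).symm
    rw [this, ← map_mul]
    norm_num
  have h3 : x + x = 0 := by
    nth_rewrite 1 [h]
    simp
  calc x = (algebraMap ℚ R (1 / 2) * 2 : R) • x := by rw [h2, one_smul]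
    _ = algebraMap ℚ R (1 / 2) • (x + x) := by rw [mul_smul, two_smul]
    _ = 0 := by rw [h3, smul_zero]

theorem t_GRAM : S_GRAM.{u, w} := by
  intro R _ _ n L _ _ z v O t xi hC
  have hz := hC.rk
  have hO := hC.odd
  have ht := hC.ht
  have hx := hC.hx
  have anti : ∀ a b i j, t a i * t b j = -(t b j * t a i) := fun a b i j =>
    hO.anti _ (ht a i) _ (ht b j)
  have hG1 : ∀ a b c d, GG z t b a c d = -GG z t a b c d := fun a b c d =>
    FF_sw01 hz _ _ _ _ (fun i j => anti b a i j)
  have hG2 : ∀ a b c d, GG z t a c b d = -GG z t a b c d := fun a b c d =>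
    FF_sw12 hz _ _ _ _ (fun i j => anti c b i j)
  have hG3 : ∀ a b c d, GG z t a b d c = -GG z t a b c d := fun a b c d =>
    FF_sw23 hz _ _ _ _ (fun i j => anti d c i j)
  have hT1 : ∀ a b c, TT z v t b a c = -TT z v t a b c := fun a b c =>
    FF_sw12 hz _ _ _ _ (fun i j => anti b a i j)
  have hT2 : ∀ a b c, TT z v t a c b = -TT z v t a b c := fun a b c =>
    FF_sw23 hz _ _ _ _ (fun i j => anti c b i j)
  have hq1 : ∀ a b, qq z v t b a = -qq z v t a b := fun a b =>
    FF_sw23 hz _ _ _ _ (fun i j => anti b a i j)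
  have haT : ∀ a b c, ∀ x ∈ O, x * TT z v t a b c = -(TT z v t a b c * x) := fun a b c x hxO =>
    TT_anti ht x (fun y hy => hO.anti x hxO y hy) a b c
  have hTT : ∀ a b c d e f, TT z v t a b c * TT z v t d e f =
      -(TT z v t d e f * TT z v t a b c) := fun a b c d e f =>
    TT_anti ht (TT z v t a b c) (fun y hy => by rw [haT a b c y hy, neg_neg]) d e f
  refine
    { ee := ?_, eP := ?_, Pe := ?_, ex := ?_, xe := ?_, PP := ?_, xP := ?_, Px := ?_, xx := ?_,
      q0 := fun a => eq_zero_of_eq_neg (R := R) (hq1 a a)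
      q1 := hq1
      T0 := fun a b => eq_zero_of_eq_neg (R := R) (hT1 a a b)
      T0' := fun a b => eq_zero_of_eq_neg (R := R) (hT2 b a a)
      T1 := hT1
      T2 := hT2
      G0 := fun a b c => eq_zero_of_eq_neg (R := R) (hG1 a a b c)
      G0' := fun a b c => eq_zero_of_eq_neg (R := R) (hG2 b a a c)
      G0'' := fun a b c => eq_zero_of_eq_neg (R := R) (hG3 b c a a)
      G1 := hG1
      G2 := hG2
      G3 := hG3
      cq := ?_, cG := ?_
      aT := haT
      TT' := hTT
      sT := fun a b c => eq_zero_of_eq_neg (R := R) (hTT a b c a b c) }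
  · -- ee
    have h1 : BB z (ve L v) (ve L v) =
        algebraMap R L (∑ a, ∑ b, ∑ c, ∑ d, z a b c d * (v a * v b * v c * v d)) := by
      unfold BB ve
      simp only [map_sum, Algebra.smul_def, ← map_mul, mul_assoc]
    rw [h1, hC.one, map_one]
  · -- eP
    intro a b
    unfold BB ve vP qq FF cv
    refine Finset.sum_congr rfl fun i _ => Finset.sum_congr rfl fun j _ =>
      Finset.sum_congr rfl fun k _ => Finset.sum_congr rfl fun l _ => ?_
    rw [map_mul]
    simp only [mul_assoc]
  · -- Pe
    intro a b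
    unfold BB ve vP qq FF cv
    rw [sum_swap4]
    refine Finset.sum_congr rfl fun i _ => Finset.sum_congr rfl fun j _ =>
      Finset.sum_congr rfl fun k _ => Finset.sum_congr rfl fun l _ => ?_
    rw [zpair hz k l i j, ← Algebra.commutes (v i * v j) (t a k * t b l), map_mul]
    simp only [mul_assoc]
  · -- ex
    intro s a
    have h1 : BB z (ve L v) (vx v t xi s a) =
        xi s * ∑ i, (∑ a, ∑ b, ∑ d, z a b d i * (v a * v b * v d)) • t a i := by
      unfold BB ve vx
      rw [sum_last4, Finset.mul_sum]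
      refine Finset.sum_congr rfl fun l _ => ?_
      simp only [Finset.sum_smul, Finset.mul_sum]
      refine Finset.sum_congr rfl fun i _ => Finset.sum_congr rfl fun j _ =>
        Finset.sum_congr rfl fun k _ => ?_
      rw [← Algebra.smul_def, mul_smul_comm, smul_smul, smul_smul]
      congr 1
      ring
    rw [h1, hC.orth, mul_zero]
  · -- xe
    intro s a
    have h1 : BB z (vx v t xi s a) (ve L v) =
        xi s * ∑ i, (∑ a, ∑ b, ∑ d, z a b d i * (v a * v b * v d)) • t a i := by
      unfold BB ve vx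
      rw [sum_swap4, sum_last4, Finset.mul_sum]
      refine Finset.sum_congr rfl fun l _ => ?_
      simp only [Finset.sum_smul, Finset.mul_sum]
      refine Finset.sum_congr rfl fun i _ => Finset.sum_congr rfl fun j _ =>
        Finset.sum_congr rfl fun k _ => ?_
      rw [← Algebra.commutes (v i * v j), ← Algebra.smul_def, mul_smul_comm, smul_smul,
        smul_smul, zpair hz k l i j]
      congr 1
      ring
    rw [h1, hC.orth, mul_zero]
  · -- PP
    intro a b c d
    unfold BB vP GG FF
    simp only [mul_assoc]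
  · -- xP
    intro s a b c
    unfold BB vP vx TT FF cv
    simp only [Finset.mul_sum]
    refine Finset.sum_congr rfl fun i _ => Finset.sum_congr rfl fun j _ =>
      Finset.sum_congr rfl fun k _ => Finset.sum_congr rfl fun l _ => ?_
    rw [mul_smul_comm, ← Algebra.smul_def, smul_mul_assoc, smul_mul_assoc, smul_mul_assoc,
      mul_smul_comm]
    simp only [mul_assoc]
  · -- Px
    intro s a b c
    unfold BB vP vx TT FF cv
    rw [sum_swap4]
    simp only [Finset.mul_sum]
    refine Finset.sum_congr rfl fun i _ => Finset.sum_congr rfl fun j _ =>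
      Finset.sum_congr rfl fun k _ => Finset.sum_congr rfl fun l _ => ?_
    rw [hO.cen _ (ht b k) _ (ht c l), zpair hz k l i j, mul_smul_comm, ← Algebra.smul_def,
      smul_mul_assoc, smul_mul_assoc, smul_mul_assoc, mul_smul_comm]
    simp only [mul_assoc]
  · -- xx
    intro s a s' b
    unfold BB vx qq FF cv
    simp only [Finset.mul_sum]
    rw [← Finset.sum_neg_distrib]
    refine Finset.sum_congr rfl fun i _ => ?_
    rw [Finset.sum_comm, ← Finset.sum_neg_distrib]
    refine Finset.sum_congr rfl fun j _ => ?_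
    rw [← Finset.sum_neg_distrib]
    refine Finset.sum_congr rfl fun k _ => ?_
    rw [← Finset.sum_neg_distrib]
    refine Finset.sum_congr rfl fun l _ => ?_
    have h1 : t a k * xi s' = -(xi s' * t a k) := hO.anti _ (ht a k) _ (hx s')
    have h2 : (xi s * t a k) * (xi s' * t b l) = -(xi s * xi s' * (t a k * t b l)) := by
      calc (xi s * t a k) * (xi s' * t b l) = xi s * (t a k * xi s') * t b l := by
            simp only [mul_assoc]
        _ = -(xi s * xi s' * (t a k * t b l)) := by
            rw [h1]; simp only [mul_assoc, mul_neg, neg_mul]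
    have h3 : algebraMap R L (v i) * algebraMap R L (v j) * t a k * t b l =
        (v i * v j) • (t a k * t b l) := by
      rw [← map_mul, mul_assoc, ← Algebra.smul_def]
    rw [h3, smul_mul_assoc, mul_smul_comm, h2, hz.s2 i k j, mul_smul_comm, mul_smul_comm,
      smul_smul, ← mul_assoc]
    simp only [smul_neg, mul_assoc, smul_smul]
  · -- cq
    intro a b w
    unfold qq FF cv
    simp only [Finset.mul_sum, Finset.sum_mul]
    refine Finset.sum_congr rfl fun i _ => Finset.sum_congr rfl fun j _ =>
      Finset.sum_congr rfl fun k _ => Finset.sum_congr rfl fun l _ => ?_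
    have h3 : algebraMap R L (v i) * algebraMap R L (v j) * t a k * t b l =
        (v i * v j) • (t a k * t b l) := by
      rw [← map_mul, mul_assoc, ← Algebra.smul_def]
    rw [h3, smul_mul_assoc, smul_mul_assoc, mul_smul_comm, mul_smul_comm,
      hO.cen _ (ht a k) _ (ht b l)]
  · -- cG
    intro a b c d w
    unfold GG FF
    simp only [Finset.mul_sum, Finset.sum_mul]
    refine Finset.sum_congr rfl fun i _ => Finset.sum_congr rfl fun j _ =>
      Finset.sum_congr rfl fun k _ => Finset.sum_congr rfl fun l _ => ?_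
    rw [smul_mul_assoc, mul_smul_comm]
    congr 1
    rw [mul_assoc (t a i * t b j), mul_assoc (t a i * t b j), hO.cen _ (ht c k) _ (ht d l),
      ← mul_assoc, hO.cen _ (ht a i) _ (ht b j), mul_assoc]

end Pool.Agent.K1H10.CT
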